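import Pool.Agent.Helper86.QA.St5

set_option autoImplicit false

open MeasureTheory Matrix Set Topology Filter
open scoped ENNReal ComplexConjugate ComplexOrder

namespace Pool.Agent.Helper2.QA

open Pool.Agent.Helper86.QA Pool.Agent.Helper20

private noncomputable def ex (t : ℝ) : ℂ := Complex.exp ((t : ℂ) * Complex.I)

private theorem ex_mem (t : ℝ) : ex t ∈ Metric.sphere (0 : ℂ) 1 := by
  rw [mem_sphere_zero_iff_norm, ex, Complex.norm_exp_ofReal_mul_I]

private theorem ex_ne {s t : ℝ} (h : 0 < t - s) (h2 : t - s < 2 * Real.pi) : ex s ≠ ex t := by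
  intro he
  unfold ex at he
  obtain ⟨n, hn⟩ := Complex.exp_eq_exp_iff_exists_int.1 he.symm
  have h3 : ((t : ℝ) : ℂ) = ((s + n * (2 * Real.pi) : ℝ) : ℂ) := by
    have h4 : ((t : ℂ)) * Complex.I = ((s : ℂ) + n * (2 * Real.pi)) * Complex.I := by
      rw [hn]; ring
    have := mul_right_cancel₀ Complex.I_ne_zero h4
    push_cast
    exact this
  have h5 : t = s + n * (2 * Real.pi) := by exact_mod_cast h3
  have hpi := Real.pi_pos
  have h6 : (0 : ℝ) < n := by
    by_contra hc
    push Not at hc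
    nlinarith
  have h7 : (n : ℝ) < 1 := by
    by_contra hc
    push Not at hc
    nlinarith
  have h8 : (0 : ℤ) < n := by exact_mod_cast h6
  have h9 : n < (1 : ℤ) := by exact_mod_cast h7
  omega

private theorem ex_exists (w : ℂ) (hw : ‖w‖ = 1) (h1 : w ≠ 1) :
    ∃ a : ℝ, 0 < a ∧ a < 2 * Real.pi ∧ w = ex a := by
  have hpi := Real.pi_pos
  have he : w = ex (Complex.arg w) := by
    unfold ex
    have := Complex.norm_mul_exp_arg_mul_I w
    rw [hw, Complex.ofReal_one, one_mul] at this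
    exact this.symm
  have hne : Complex.arg w ≠ 0 := by
    intro h0
    rw [h0] at he
    apply h1
    rw [he]
    unfold ex
    simp
  rcases lt_or_gt_of_ne hne with h | h
  · refine ⟨Complex.arg w + 2 * Real.pi, ?_, ?_, ?_⟩
    · have := Complex.neg_pi_lt_arg w
      linarith
    · linarith
    · have hper : ∀ t : ℝ, ex (t + 2 * Real.pi) = ex t := by
        intro t
        unfold ex
        push_cast
        rw [add_mul, Complex.exp_add, Complex.exp_two_pi_mul_I, mul_one]
      exact (he.trans (hper _).symm).trans (congrArg ex (by ring_nf))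
  · refine ⟨Complex.arg w, h, ?_, he⟩
    have := Complex.arg_le_pi w
    linarith

private theorem re_pos {p q : ℂ} (hp : p ∈ Metric.sphere (0 : ℂ) 1)
    (hq : q ∈ Metric.sphere (0 : ℂ) 1) (h : p ≠ q) : 1 - p * conj q ∈ Complex.slitPlane := by
  rw [mem_sphere_zero_iff_norm] at hp hq
  left
  have h1 : 0 < Complex.normSq (p - q) := Complex.normSq_pos.2 (sub_ne_zero.2 h)
  rw [Complex.normSq_sub, Complex.normSq_eq_norm_sq, Complex.normSq_eq_norm_sq, hp, hq] at h1
  rw [Complex.sub_re, Complex.one_re]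
  linarith

private theorem bd_cont {X : Type*} [TopologicalSpace X] {V : Set X} {f g : X → ℂ}
    (hf : ContinuousOn f V) (hg : ContinuousOn g V)
    (hfs : ∀ v ∈ V, f v ∈ Metric.sphere (0 : ℂ) 1)
    (hgs : ∀ v ∈ V, g v ∈ Metric.sphere (0 : ℂ) 1) (hne : ∀ v ∈ V, f v ≠ g v) :
    ContinuousOn (fun v => bd (f v) (g v)) V := by
  intro v hv
  unfold bd
  have h1 : ContinuousWithinAt (fun v => 1 - f v * conj (g v)) V v :=
    (continuousWithinAt_const.sub ((hf v hv).mul
      (Complex.continuous_conj.continuousAt.comp_continuousWithinAt (hg v hv))))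
  have h2 := Complex.continuousAt_arg (re_pos (hfs v hv) (hgs v hv) (hne v hv))
  exact continuousWithinAt_const.mul (ContinuousAt.comp_continuousWithinAt (f := fun v => 1 - f v * conj (g v)) h2 h1)

private def VV3 : Set (ℝ × ℝ × ℝ) := {v | 0 < v.2.1 ∧ v.2.1 < v.2.2 ∧ v.2.2 < 2 * Real.pi}

private theorem VV3_pre : IsPreconnected VV3 := by
  refine Convex.isPreconnected ?_
  intro v hv w hw a b ha hb hab
  obtain ⟨v1, v2, v3⟩ := hv
  obtain ⟨w1, w2, w3⟩ := hw
  refine ⟨?_, ?_, ?_⟩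
  · simp only [Prod.snd_add, Prod.smul_snd, Prod.fst_add, Prod.smul_fst, smul_eq_mul]
    rcases ha.eq_or_lt with h | h
    · subst h
      have : b = 1 := by linarith
      subst this
      linarith
    · have h1 := mul_pos h v1
      have h2 := mul_nonneg hb w1.le
      linarith
  · simp only [Prod.snd_add, Prod.smul_snd, Prod.fst_add, Prod.smul_fst, smul_eq_mul]
    rcases ha.eq_or_lt with h | h
    · subst h
      have : b = 1 := by linarith
      subst this
      linarith
    · have h1 := mul_lt_mul_of_pos_left v2 h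
      have h2 := mul_le_mul_of_nonneg_left w2.le hb
      linarith
  · simp only [Prod.snd_add, Prod.smul_snd, smul_eq_mul]
    rcases ha.eq_or_lt with h | h
    · subst h
      have : b = 1 := by linarith
      subst this
      linarith
    · have h1 := mul_lt_mul_of_pos_left v3 h
      have h2 := mul_le_mul_of_nonneg_left w3.le hb
      have h3 : a * (2 * Real.pi) + b * (2 * Real.pi) = 2 * Real.pi := by
        rw [← add_mul, hab, one_mul]
      linarith

private theorem ex_cont : Continuous ex := by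
  unfold ex
  fun_prop

/-- constancy on cyclically ordered triples -/
private theorem const_on (hAD1 : StAD1) (E : ℂ → ℂ) (hE : ContinuousOn E (Metric.sphere 0 1))
    (hi : InjOn E (Metric.sphere 0 1)) (hm : MapsTo E (Metric.sphere 0 1) (Metric.sphere 0 1)) :
    ∃ c : ℝ, (c = Real.pi ∨ c = -Real.pi) ∧ ∀ v ∈ VV3,
      Ad (E (ex v.1)) (E (ex (v.1 + v.2.1))) (E (ex (v.1 + v.2.2))) = c := by
  obtain ⟨-, -, -, -, -, h6, -⟩ := hAD1
  have hd1 : ∀ v ∈ VV3, ex v.1 ≠ ex (v.1 + v.2.1) := fun v hv => by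
    obtain ⟨v1, v2, v3⟩ := hv
    exact ex_ne (by linarith) (by linarith)
  have hd2 : ∀ v ∈ VV3, ex (v.1 + v.2.1) ≠ ex (v.1 + v.2.2) := fun v hv => by
    obtain ⟨v1, v2, v3⟩ := hv
    exact ex_ne (by linarith) (by linarith)
  have hd3 : ∀ v ∈ VV3, ex (v.1 + v.2.2) ≠ ex v.1 := fun v hv => by
    obtain ⟨v1, v2, v3⟩ := hv
    exact (ex_ne (by linarith) (by linarith)).symm
  have hval : ∀ v ∈ VV3, Ad (E (ex v.1)) (E (ex (v.1 + v.2.1))) (E (ex (v.1 + v.2.2))) ∈
      ({Real.pi, -Real.pi} : Set ℝ) := by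
    intro v hv
    exact h6 _ (hm (ex_mem _)) _ (hm (ex_mem _)) _ (hm (ex_mem _))
      (fun h => hd1 v hv (hi (ex_mem _) (ex_mem _) h))
      (fun h => hd2 v hv (hi (ex_mem _) (ex_mem _) h))
      (fun h => hd3 v hv (hi (ex_mem _) (ex_mem _) h))
  have c1 : ContinuousOn (fun v : ℝ × ℝ × ℝ => E (ex v.1)) VV3 :=
    hE.comp (ex_cont.comp continuous_fst).continuousOn (fun v _ => ex_mem _)
  have c2 : ContinuousOn (fun v : ℝ × ℝ × ℝ => E (ex (v.1 + v.2.1))) VV3 :=
    hE.comp (ex_cont.comp (by fun_prop)).continuousOn (fun v _ => ex_mem _)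
  have c3 : ContinuousOn (fun v : ℝ × ℝ × ℝ => E (ex (v.1 + v.2.2))) VV3 :=
    hE.comp (ex_cont.comp (by fun_prop)).continuousOn (fun v _ => ex_mem _)
  have s1 : ∀ t : ℝ, E (ex t) ∈ Metric.sphere (0 : ℂ) 1 := fun t => hm (ex_mem t)
  have hc : ContinuousOn (fun v : ℝ × ℝ × ℝ =>
      Ad (E (ex v.1)) (E (ex (v.1 + v.2.1))) (E (ex (v.1 + v.2.2)))) VV3 := by
    unfold Ad
    refine ((bd_cont c1 c2 (fun v _ => s1 _) (fun v _ => s1 _) ?_).add
      (bd_cont c2 c3 (fun v _ => s1 _) (fun v _ => s1 _) ?_)).add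
      (bd_cont c3 c1 (fun v _ => s1 _) (fun v _ => s1 _) ?_)
    · exact fun v hv h => hd1 v hv (hi (ex_mem _) (ex_mem _) h)
    · exact fun v hv h => hd2 v hv (hi (ex_mem _) (ex_mem _) h)
    · exact fun v hv h => hd3 v hv (hi (ex_mem _) (ex_mem _) h)
  have hv0 : ((0 : ℝ), (1 : ℝ), (2 : ℝ)) ∈ VV3 := by
    have := Real.pi_gt_three
    refine ⟨by norm_num, by norm_num, ?_⟩
    change (2 : ℝ) < 2 * Real.pi
    linarith
  refine ⟨_, hval _ hv0, fun v hv => ?_⟩
  exact VV3_pre.constant_of_mapsTo (Set.Finite.isDiscrete (by simp)) hc hval hv hv0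

private theorem ad_swap (hAD1 : StAD1) {p q r : ℂ} (hp : p ∈ Metric.sphere (0 : ℂ) 1)
    (hq : q ∈ Metric.sphere (0 : ℂ) 1) (hr : r ∈ Metric.sphere (0 : ℂ) 1) :
    Ad p r q = - Ad p q r := by
  have hs := Metric.sphere_subset_closedBall (x := (0 : ℂ)) (ε := 1)
  have h1 := (hAD1.1 p (hs hp) q (hs hq)).2
  have h2 := (hAD1.1 q (hs hq) r (hs hr)).2
  have h3 := (hAD1.1 r (hs hr) p (hs hp)).2
  unfold Ad
  linarith

theorem hAD2 (hAD1 : StAD1) : StAD2 := by
  intro E hE hi hm
  obtain ⟨c2, hc2, h2⟩ := const_on hAD1 E hE hi hm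
  obtain ⟨c1, hc1, h1⟩ := const_on hAD1 id continuousOn_id (injOn_id _) (mapsTo_id _)
  have hpi := Real.pi_pos
  obtain ⟨s, hs, hcs⟩ : ∃ s : ℝ, (s = 1 ∨ s = -1) ∧ c2 = s * c1 := by
    rcases hc1 with h | h <;> rcases hc2 with h' | h' <;> subst h <;> subst h'
    · exact ⟨1, Or.inl rfl, by ring⟩
    · exact ⟨-1, Or.inr rfl, by ring⟩
    · exact ⟨-1, Or.inr rfl, by ring⟩
    · exact ⟨1, Or.inl rfl, by ring⟩
  refine ⟨s, hs, ?_⟩
  have hS := Metric.sphere_subset_closedBall (x := (0 : ℂ)) (ε := 1)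
  -- ordered triples
  have key : ∀ c a b : ℝ, 0 < a → a < b → b < 2 * Real.pi →
      Ad (E (ex c)) (E (ex (c + a))) (E (ex (c + b))) =
        s * Ad (ex c) (ex (c + a)) (ex (c + b)) := by
    intro c a b h3 h4 h5
    have e2 := h2 (c, a, b) ⟨h3, h4, h5⟩
    have e1 := h1 (c, a, b) ⟨h3, h4, h5⟩
    simp only [id] at e1 e2
    rw [e1, e2, hcs]
  intro p hp q hq r hr
  by_cases hco : p = q ∨ q = r ∨ r = p
  · have e1 : Ad p q r = 0 := (hAD1.2.1 p (hS hp) q (hS hq) r (hS hr)).2 hco
    have e2 : Ad (E p) (E q) (E r) = 0 :=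
      (hAD1.2.1 _ (hS (hm hp)) _ (hS (hm hq)) _ (hS (hm hr))).2
        (hco.imp (fun h => by rw [h]) (fun h => h.imp (fun h => by rw [h]) (fun h => by rw [h])))
    rw [e1, e2, mul_zero]
  · push Not at hco
    obtain ⟨hpq, hqr, hrp⟩ := hco
    have hp' := mem_sphere_zero_iff_norm.1 hp
    have hq' := mem_sphere_zero_iff_norm.1 hq
    have hr' := mem_sphere_zero_iff_norm.1 hr
    have hp0 : p ≠ 0 := by
      intro h; rw [h, norm_zero] at hp'; norm_num at hp'
    have hpe : p = ex (Complex.arg p) := by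
      unfold ex
      have := Complex.norm_mul_exp_arg_mul_I p
      rw [hp', Complex.ofReal_one, one_mul] at this
      exact this.symm
    obtain ⟨a, ha0, ha1, hae⟩ := ex_exists (q / p) (by rw [norm_div, hp', hq', div_one])
      (by intro h; apply hpq; rw [div_eq_one_iff_eq hp0] at h; exact h.symm)
    obtain ⟨b, hb0, hb1, hbe⟩ := ex_exists (r / p) (by rw [norm_div, hp', hr', div_one])
      (by intro h; apply hrp; rw [div_eq_one_iff_eq hp0] at h; exact h)
    have hadd : ∀ s t : ℝ, ex (s + t) = ex s * ex t := by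
      intro s t
      unfold ex
      push_cast
      rw [add_mul, Complex.exp_add]
    have hqe : q = ex (Complex.arg p + a) := by
      rw [hadd, ← hpe, ← hae]; field_simp
    have hre : r = ex (Complex.arg p + b) := by
      rw [hadd, ← hpe, ← hbe]; field_simp
    have hab : a ≠ b := by
      intro h; apply hqr; rw [hqe, hre, h]
    rcases lt_or_gt_of_ne hab with h | h
    · have k := key (Complex.arg p) a b ha0 h hb1
      rw [← hpe, ← hqe, ← hre] at k
      exact k
    · have k := key (Complex.arg p) b a hb0 h ha1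
      rw [← hpe, ← hqe, ← hre] at k
      have k1 := ad_swap hAD1 hp hq hr
      have k2 := ad_swap hAD1 (hm hp) (hm hq) (hm hr)
      rw [k1, k2] at k
      linarith

end Pool.Agent.Helper2.QA
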